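import Pool.Agent.PCO.StmtsE

/-!
# Squad NTS / PCO (MP_e54c4c_gt), row E1 (helper85): near boxes have the same apex
-/

set_option autoImplicit false

open Matrix Filter Topology

namespace Pool.Agent.PCO.H85

open Pool.Agent.PFS Pool.Agent.PFJ Pool.Agent.PCO

theorem e1 (wbf : WbfStmt) (bf1 : Bf1Stmt) (bxm : BxmStmt) (bxw : BxwStmt) (ffp : FfpStmt)
    (dir : DirStmt) (e1a : E1aStmt) (noi : NoiF) : E1Stmt := by
  intro n C Γ d hH U v Um vm hB hd hBm hdm hlim hvm
  have hcc : CC C Γ := hH.toCC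
  have hP : PCone C := hcc.toPCone
  obtain ⟨-, hvcl, hv0, hvU, -, -, ⟨f, hf⟩, -, -⟩ := bf1 n C Γ hcc hH.maxc U v hB
  obtain ⟨-, -, -, -, hext, -, -⟩ := bxm n C Γ d hH U v hB hd
  have h0 : (0 : V n) ∈ closure C := by
    have h := hP.cl_smul hvcl (le_refl (0 : ℝ))
    rwa [zero_smul] at h
  have hf0 : Unt C U (f + 0) := by
    rw [add_zero]
    exact hf
  rcases ffp n C Γ d hH U v Um vm hB hd hBm hdm hlim hvm f 0 1 hf.1 hf.2.1 U.zero_mem h0 hf0
    zero_le_one with hnear | hfail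
  · have hW : ∀ᶠ m in atTop, v ∈ Wb (Um m) (vm m) := by
      filter_upwards [hnear] with m hm
      apply dir n C hP (Wb (Um m) (vm m)) (f + v) v (hP.cl_add hf.2.1 hvcl) hvcl hv0 hext
      intro j
      have h := hm j
      have e : f + (2 : ℝ) ^ j • (0 : V n) + (1 + (2 : ℝ) ^ j * 1) • v =
          f + v + (2 : ℝ) ^ j • v := by
        rw [smul_zero, add_zero, mul_one, add_smul, one_smul, add_assoc]
      rw [e] at h
      exact h
    have hnot : ∀ᶠ m in atTop, v ∉ Um m := by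
      by_contra hcon
      rw [Filter.not_eventually] at hcon
      obtain ⟨φ, hφ, hφm⟩ := Filter.extraction_of_frequently_atTop hcon
      exact hvU (hlim.2 φ (fun _ => v) v hφ (fun m => not_not.mp (hφm m)) tendsto_const_nhds)
    filter_upwards [hW, hnot] with m h1 h2
    rcases bxw n C Γ hcc hH.maxc (Um m) (vm m) (hBm m) v h1 hvcl hext hv0 with h3 | ⟨c, hc, h3⟩
    · exact absurd h3 h2
    · refine ⟨c⁻¹, inv_pos.mpr hc, ?_⟩
      rw [h3, smul_smul, inv_mul_cancel₀ hc.ne', one_smul]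
  · exfalso
    obtain ⟨U1, v1, v2, h1, h2, h3, h4⟩ := e1a n C Γ d hH U v Um vm f hB hd hlim hf hfail
    obtain ⟨c, hc, h5⟩ := noi n C Γ d hH U1 v1 v2 h1 h2 h3
    apply h4
    rw [h5, (wbf n).2.2.1 U1 v1 c hc.ne']

end Pool.Agent.PCO.H85
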